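import Pool.Agent.Helper95.RP.St

set_option autoImplicit false

namespace Pool.Agent.Helper79.RP

open Pool.Agent.Helper95.RP Finset
open scoped Classical

theorem hRO : RO := by
  intro α A x K hK
  set F : ℤ := ∑ u ∈ A, ⌊x u⌋ with hF
  set U : Finset α := A.filter (fun u => (⌊x u⌋ : ℝ) < x u) with hU
  have hFle : (F : ℝ) ≤ ∑ u ∈ A, x u := by
    rw [hF]
    push_cast
    exact Finset.sum_le_sum fun u _ => Int.floor_le _
  have hKF : F ≤ K := by
    have h1 := (abs_lt.1 hK).1
    have h2 : (F : ℝ) < (K : ℝ) + 1 := by linarith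
    have h3 : F < K + 1 := by exact_mod_cast h2
    omega
  -- the upper bound
  have hUp : ∑ u ∈ A, x u ≤ F + (U.card : ℝ) := by
    have e : (U.card : ℝ) = ∑ u ∈ A, (if (⌊x u⌋ : ℝ) < x u then (1 : ℝ) else 0) := by
      rw [hU, Finset.card_filter]
      push_cast
      rfl
    rw [hF, e]
    push_cast
    rw [← Finset.sum_add_distrib]
    refine Finset.sum_le_sum fun u _ => ?_
    by_cases h : (⌊x u⌋ : ℝ) < x u
    · rw [if_pos h]
      exact (Int.lt_floor_add_one _).le
    · rw [if_neg h]
      push Not at h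
      linarith
  have hUpS : U.Nonempty → ∑ u ∈ A, x u < F + (U.card : ℝ) := by
    intro hne
    obtain ⟨w, hw⟩ := hne
    have hwA : w ∈ A := (Finset.mem_filter.1 hw).1
    have hwx : (⌊x w⌋ : ℝ) < x w := (Finset.mem_filter.1 hw).2
    have e : (U.card : ℝ) = ∑ u ∈ A, (if (⌊x u⌋ : ℝ) < x u then (1 : ℝ) else 0) := by
      rw [hU, Finset.card_filter]
      push_cast
      rfl
    rw [hF, e]
    push_cast
    rw [← Finset.sum_add_distrib]
    refine Finset.sum_lt_sum (fun u _ => ?_) ⟨w, hwA, ?_⟩
    · by_cases h : (⌊x u⌋ : ℝ) < x u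
      · rw [if_pos h]
        exact (Int.lt_floor_add_one _).le
      · rw [if_neg h]
        push Not at h
        linarith
    · rw [if_pos hwx]
      exact Int.lt_floor_add_one _
  have hKU : K - F ≤ (U.card : ℤ) := by
    have h1 := (abs_lt.1 hK).2
    rcases U.eq_empty_or_nonempty with h0 | hne
    · have h2 : ((U.card : ℕ) : ℝ) = 0 := by rw [h0]; simp
      have h3 : (K : ℝ) < F + 1 := by linarith
      have h4 : K < F + 1 := by exact_mod_cast h3
      omega
    · have h2 := hUpS hne
      have h3 : (K : ℝ) < F + (U.card : ℝ) + 1 := by linarith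
      have h4 : K < F + (U.card : ℤ) + 1 := by exact_mod_cast h3
      omega
  obtain ⟨k, hk⟩ : ∃ k : ℕ, (k : ℤ) = K - F := ⟨(K - F).toNat, Int.toNat_of_nonneg (by omega)⟩
  have hkU : k ≤ U.card := by
    have : (k : ℤ) ≤ (U.card : ℤ) := by rw [hk]; exact hKU
    exact_mod_cast this
  obtain ⟨V, hVU, hVc⟩ := Finset.exists_subset_card_eq hkU
  refine ⟨fun u => ⌊x u⌋ + (if u ∈ V then 1 else 0), ?_, ?_⟩
  · intro u hu
    by_cases h : u ∈ V
    · have hux : (⌊x u⌋ : ℝ) < x u := (Finset.mem_filter.1 (hVU h)).2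
      have h2 := Int.lt_floor_add_one (x u)
      simp only [if_pos h]
      push_cast
      rw [abs_lt]
      constructor <;> linarith
    · have h1 := Int.floor_le (x u)
      have h2 := Int.lt_floor_add_one (x u)
      simp only [if_neg h]
      push_cast
      rw [abs_lt]
      constructor <;> linarith
  · rw [Finset.sum_add_distrib]
    have e2 : ∑ u ∈ A, (if u ∈ V then (1 : ℤ) else 0) = (V.card : ℤ) := by
      rw [← Finset.sum_filter]
      have e3 : A.filter (fun u => u ∈ V) = V := by
        ext u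
        simp only [Finset.mem_filter]
        exact ⟨fun h => h.2, fun h => ⟨(Finset.mem_filter.1 (hVU h)).1, h⟩⟩
      rw [e3]
      simp
    rw [e2, ← hF, hVc, hk]
    ring

end Pool.Agent.Helper79.RP
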